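import Mathlib
import Pool.Agent.Run7.h734.One

/-!
# Kolmogorov type inequalities on a finite interval: the first derivative

For every `n ≥ 4` and every `σ > 0` the problem of the largest norm of the first derivative in the
class `W n σ` (`‖f‖ ≤ 1`, `‖f^{(n)}‖ ≤ σ` on `[-1,1]`) is solved in the form conjectured by Karlin:

* `M_{n,1}(σ)` is finite and equal to the supremum of `|f'(1)|` over the class;
* every extremal function attains its maximal derivative only at the end points of the interval;
* if `Z` is a Zolotarev perfect spline of degree `n` with parameter `σ` (with any number of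
  knots), then `Z` is extremal and `M_{n,1}(σ) = Z'(1)`.
-/

open Set Run7.h734

theorem Pool.Agent.Results.MP_0732f2_an.FirstDerivative.result (n : ℕ) (hn : 4 ≤ n) (σ : ℝ)
    (hσ : 0 < σ) :
    BddAbove ((fun f => unorm (der 1 f)) '' {f | W n σ f}) ∧
    M n 1 σ = E n 1 σ ∧
    (∀ f, W n σ f → unorm (der 1 f) = M n 1 σ →
      ∀ x ∈ Ioo (-1 : ℝ) 1, |der 1 f x| < M n 1 σ) ∧
    (∀ (r : ℕ) (Z : ℝ → ℝ), IsZol n r σ Z →
      W n σ Z ∧ unorm (der 1 Z) = M n 1 σ ∧ der 1 Z 1 = M n 1 σ) := by
  have h := karlin_one hn hσ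
  exact ⟨h.bdd, h.value, h.only_end, fun r Z hZ => ⟨hZ.mem, h.zol r Z hZ⟩⟩
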