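import Mathlib
import Pool.Agent.Run7.h734.TopMain

/-!
# Kolmogorov type inequalities on a finite interval: the derivative of order `n - 1`

For every `n ≥ 4` and every `σ > 0` the problem of the largest norm of the derivative of order
`n - 1` in the class `W n σ` (`‖f‖ ≤ 1`, `‖f^{(n)}‖ ≤ σ` on `[-1,1]`) is solved in the form
conjectured by Karlin:

* `M_{n,n-1}(σ)` is finite and equal to the supremum of `|f^{(n-1)}(1)|` over the class;
* every extremal function attains its maximal derivative only at the end points of the interval;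
* if `Z` is a Zolotarev perfect spline of degree `n` with parameter `σ` (with any number of
  knots), then `Z` is extremal and `M_{n,n-1}(σ) = Z^{(n-1)}(1)`.
-/

open Set Run7.h734

theorem Pool.Agent.Results.MP_0732f2_an.TopDerivative.result (n : ℕ) (hn : 4 ≤ n) (σ : ℝ)
    (hσ : 0 < σ) :
    BddAbove ((fun f => unorm (der (n - 1) f)) '' {f | W n σ f}) ∧
    M n (n - 1) σ = E n (n - 1) σ ∧
    (∀ f, W n σ f → unorm (der (n - 1) f) = M n (n - 1) σ →
      ∀ x ∈ Ioo (-1 : ℝ) 1, |der (n - 1) f x| < M n (n - 1) σ) ∧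
    (∀ (r : ℕ) (Z : ℝ → ℝ), IsZol n r σ Z →
      W n σ Z ∧ unorm (der (n - 1) Z) = M n (n - 1) σ ∧ der (n - 1) Z 1 = M n (n - 1) σ) := by
  have h := karlin_top hn hσ
  exact ⟨h.bdd, h.value, h.only_end, fun r Z hZ => ⟨hZ.mem, h.zol r Z hZ⟩⟩
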